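import Pool.Agent.Helper99.ZS.Lib

set_option autoImplicit false

/-!
MP_98699e_co, module ATT: attaching a tree by an embedding with small influence.
-/

open Finset MeasureTheory

noncomputable section

namespace ZS

section att
variable {V : Type} [Fintype V] [DecidableEq V] {p : ℕ}

/-- a vertex of small influence outside a small set -/
theorem att_pick (hI : ST_INF) {h : Host V p} {D : ℕ} (hg : h.Good D) {θ M : ℝ} (h0 : 0 < θ)
    (h1 : 2 * θ ≤ 1) (s : Bool) (u : V) (U : Finset V) (hD : 0 < D) (hU : 2 * #U ≤ D)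
    (hN : (h.N s u).Nonempty) (Φ Ψ : Finset V → ℝ) (hΦ : ∀ A B, A ⊆ B → Φ A ≤ Φ B)
    (hΨ : ∀ A B, A ⊆ B → Ψ A ≤ Ψ B) (hΦ0 : ∀ A, 0 ≤ Φ A) (hΦM : ∀ A, Φ A ≤ M)
    (hΨ0 : ∀ A, 0 ≤ Ψ A) (hΨM : ∀ A, Ψ A ≤ M) :
    ∃ w ∈ h.N s u, w ∉ U ∧ EE θ (fun B => Φ B - Φ (B \ {w})) +
      EE θ (fun B => Ψ (B ∪ {w}) - Ψ B) ≤ 4 * M / (θ * D) := by
  have hDp : (0 : ℝ) < D := by exact_mod_cast hD
  have hM : 0 ≤ M := (hΦ0 ∅).trans (hΦM ∅)
  set I : V → ℝ := fun w => EE θ (fun A => Φ (insert w A) - Φ (A.erase w)) +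
    EE θ (fun A => Ψ (insert w A) - Ψ (A.erase w)) with hIdef
  have hI0 : ∀ w, 0 ≤ I w := by
    intro w
    have hsub : ∀ A : Finset V, A.erase w ⊆ insert w A := fun A =>
      (A.erase_subset w).trans (A.subset_insert w)
    refine add_nonneg (EE_nonneg h0.le h1 fun A => sub_nonneg.2 (hΦ _ _ (hsub A)))
      (EE_nonneg h0.le h1 fun A => sub_nonneg.2 (hΨ _ _ (hsub A)))
  have htot : ∑ w, I w ≤ 2 * M / θ := by
    rw [hIdef, sum_add_distrib]
    have a1 := hI V θ M h0 h1 Φ hΦ hΦ0 hΦM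
    have a2 := hI V θ M h0 h1 Ψ hΨ hΨ0 hΨM
    have : 2 * M / θ = M / θ + M / θ := by ring
    rw [this]
    exact add_le_add a1 a2
  have hcard : D ≤ 2 * #(h.N s u \ U) := by
    have c1 := hg.deg s u hN
    have c2 := le_card_sdiff U (h.N s u)
    omega
  have hcardR : (D : ℝ) ≤ 2 * #(h.N s u \ U) := by exact_mod_cast hcard
  have hex : ∃ w ∈ h.N s u \ U, I w ≤ 4 * M / (θ * D) := by
    by_contra hcon
    push Not at hcon
    have hne : (h.N s u \ U).Nonempty := by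
      rw [← card_pos]; omega
    have hlt : ∑ w ∈ h.N s u \ U, 4 * M / (θ * D) < ∑ w ∈ h.N s u \ U, I w :=
      sum_lt_sum_of_nonempty hne hcon
    rw [sum_const, nsmul_eq_mul] at hlt
    have h3 : ∑ w ∈ h.N s u \ U, I w ≤ 2 * M / θ :=
      (sum_le_univ_sum_of_nonneg hI0).trans htot
    have h4 : 2 * M / θ ≤ (#(h.N s u \ U) : ℝ) * (4 * M / (θ * D)) := by
      calc 2 * M / θ = (D / 2 : ℝ) * (4 * M / (θ * D)) := by field_simp; ring
        _ ≤ _ := mul_le_mul_of_nonneg_right (by linarith) (by positivity)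
    linarith
  obtain ⟨w, hw, hIw⟩ := hex
  rw [mem_sdiff] at hw
  refine ⟨w, hw.1, hw.2, le_trans (add_le_add ?_ ?_) hIw⟩
  · refine EE_mono h0.le h1 fun A => ?_
    rw [sdiff_singleton_eq_erase]
    have := hΦ _ _ (A.subset_insert w)
    linarith
  · refine EE_mono h0.le h1 fun A => ?_
    have e1 : A ∪ {w} = insert w A := by
      rw [union_comm]; rfl
    rw [e1]
    have := hΨ _ _ (A.erase_subset w)
    linarith

theorem att_main (hI : ST_INF) {h : Host V p} {D : ℕ} (hg : h.Good D) {θ M : ℝ} (h0 : 0 < θ)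
    (h1 : 2 * θ ≤ 1) (t : RT) : ∀ (s : Bool) (u : V) (U : Finset V), u ∈ U →
    2 * (#U + t.e) ≤ D + 2 → (h.N s u).Nonempty → ∀ (Φ Ψ : Finset V → ℝ),
    (∀ A B, A ⊆ B → Φ A ≤ Φ B) → (∀ A B, A ⊆ B → Ψ A ≤ Ψ B) → (∀ A, 0 ≤ Φ A) →
    (∀ A, Φ A ≤ M) → (∀ A, 0 ≤ Ψ A) → (∀ A, Ψ A ≤ M) →
    ∃ (φ : Finset V) (x : ZMod p), Emb h t s u φ x ∧ Disjoint φ U ∧
      EE θ (fun B => Φ B - Φ (B \ φ)) + EE θ (fun B => Ψ (B ∪ φ) - Ψ B) ≤
        t.e * (4 * M / (θ * D)) := by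
  induction t with
  | nil =>
    intro s u U hu hc hN Φ Ψ hΦ hΨ hΦ0 hΦM hΨ0 hΨM
    refine ⟨∅, 0, ⟨rfl, rfl⟩, disjoint_empty_left _, ?_⟩
    simp only [sdiff_empty, union_empty, sub_self, EE_const]
    simp [RT.e]
  | cons a b iha ihb =>
    intro s u U hu hc hN Φ Ψ hΦ hΨ hΦ0 hΦM hΨ0 hΨM
    have hU1 : 1 ≤ #U := card_pos.2 ⟨u, hu⟩
    rw [RT.e] at hc
    obtain ⟨w, hwN, hwU, hw⟩ := att_pick hI hg h0 h1 s u U (by omega) (by omega) hN Φ Ψ
      hΦ hΨ hΦ0 hΦM hΨ0 hΨM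
    have hwN' : (h.N (!s) w).Nonempty := ⟨u, (N_symm h s u w).1 hwN⟩
    obtain ⟨φa, y, hEa, hda, hca⟩ := iha (!s) w (insert w U) (mem_insert_self _ _)
      (by rw [card_insert_of_notMem hwU]; omega) hwN' (fun B => Φ (B \ {w}))
      (fun B => Ψ (B ∪ {w}))
      (fun A B hAB => hΦ _ _ (sdiff_subset_sdiff hAB (Subset.refl _)))
      (fun A B hAB => hΨ _ _ (union_subset_union hAB (Subset.refl _)))
      (fun A => hΦ0 _) (fun A => hΦM _) (fun A => hΨ0 _) (fun A => hΨM _)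
    rw [disjoint_insert_right] at hda
    have hcard : #(insert w U ∪ φa) = #U + 1 + a.e := by
      rw [card_union_of_disjoint, card_insert_of_notMem hwU, Emb_card h a _ _ _ _ hEa]
      rw [disjoint_insert_left]
      exact ⟨hda.1, hda.2.symm⟩
    obtain ⟨φb, z, hEb, hdb, hcb⟩ := ihb s u (insert w U ∪ φa)
      (mem_union_left _ (mem_insert_of_mem hu)) (by rw [hcard]; omega) hN
      (fun B => Φ ((B \ φa) \ {w})) (fun B => Ψ ((B ∪ φa) ∪ {w}))
      (fun A B hAB => hΦ _ _ (sdiff_subset_sdiff (sdiff_subset_sdiff hAB (Subset.refl _))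
        (Subset.refl _)))
      (fun A B hAB => hΨ _ _ (union_subset_union (union_subset_union hAB (Subset.refl _))
        (Subset.refl _)))
      (fun A => hΦ0 _) (fun A => hΦM _) (fun A => hΨ0 _) (fun A => hΨM _)
    rw [disjoint_union_right, disjoint_insert_right] at hdb
    refine ⟨insert w (φa ∪ φb), h.c u w + y + z,
      ⟨w, φa, φb, y, z, hwN, hEa, hEb, ?_, hdb.1.1, hdb.2.symm, rfl, rfl⟩, ?_, ?_⟩
    · intro hu'
      exact (disjoint_left.1 hda.2 hu') hu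
    · rw [disjoint_insert_left, disjoint_union_left]
      exact ⟨hwU, hda.2, hdb.1.2⟩
    · have s1 : ∀ B : Finset V, B \ insert w (φa ∪ φb) = ((B \ φb) \ φa) \ {w} := by
        intro B; ext x
        simp only [mem_sdiff, mem_insert, mem_union, mem_singleton]
        tauto
      have s2 : ∀ B : Finset V, B ∪ insert w (φa ∪ φb) = ((B ∪ φb) ∪ φa) ∪ {w} := by
        intro B; ext x
        simp only [mem_insert, mem_union, mem_singleton]
        tauto
      have t1 : EE θ (fun B => Φ B - Φ (B \ insert w (φa ∪ φb))) =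
          EE θ (fun B => Φ B - Φ (B \ {w})) + (EE θ (fun B => Φ (B \ {w}) -
            Φ ((B \ φa) \ {w})) + EE θ (fun B => Φ ((B \ φa) \ {w}) -
            Φ (((B \ φb) \ φa) \ {w}))) := by
        rw [← EE_add, ← EE_add]
        congr 1
        funext B
        rw [s1]
        ring
      have t2 : EE θ (fun B => Ψ (B ∪ insert w (φa ∪ φb)) - Ψ B) =
          EE θ (fun B => Ψ (B ∪ {w}) - Ψ B) + (EE θ (fun B => Ψ ((B ∪ φa) ∪ {w}) -
            Ψ (B ∪ {w})) + EE θ (fun B => Ψ (((B ∪ φb) ∪ φa) ∪ {w}) -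
            Ψ ((B ∪ φa) ∪ {w}))) := by
        rw [← EE_add, ← EE_add]
        congr 1
        funext B
        rw [s2]
        ring
      rw [t1, t2]
      have he : (((RT.cons a b).e : ℕ) : ℝ) = a.e + b.e + 1 := by
        rw [RT.e]; push_cast; ring
      rw [he]
      nlinarith [hw, hca, hcb]

end att

theorem st_ATT (hI : ST_INF) : ST_ATT := by
  intro V _ _ p _ h D hg t s u θ M h0 h1 hD ht hN Φ Ψ hΦ hΨ hΦ0 hΦM hΨ0 hΨM hE
  obtain ⟨φ, x, hφ, -, hc⟩ := att_main hI hg h0 h1 t s u {u} (mem_singleton_self u)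
    (by rw [card_singleton]; omega) hN Φ Ψ hΦ hΨ hΦ0 hΦM hΨ0 hΨM
  refine le_trans ?_ hc
  rw [← EE_add]
  refine EE_mono h0.le h1 fun B => ?_
  have a1 := hE φ x hφ B
  have a2 := hΦ (B \ φ) B sdiff_subset
  have a3 := hΨ B (B ∪ φ) subset_union_left
  rw [max_le_iff]
  constructor <;> linarith

end ZS
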