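import Pool.Agent.Helper99.ZS.Lib

set_option autoImplicit false

/-!
MP_98699e_co, module IND: the deficits add up.
-/

open Finset MeasureTheory

noncomputable section

namespace ZS

section ind
variable {V : Type} [Fintype V] [DecidableEq V] {p : ℕ}

theorem ind_Tg_le (s : Bool) {t : RT} (ht : 1 ≤ t.e) : Tg p s t ≤ 18 * t.e := by
  unfold Tg
  have := g_le_e t s
  omega

theorem ind_Tg_leR (s : Bool) {t : RT} (ht : 1 ≤ t.e) : (Tg p s t : ℝ) ≤ 18 * t.e := by
  exact_mod_cast ind_Tg_le (p := p) s ht

theorem ind_DF_anti [NeZero p] (hM : ST_EMON) (h : Host V p) {θ θ' : ℝ} (h0 : 0 ≤ θ)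
    (hq : θ ≤ θ') (h1 : 2 * θ' ≤ 1) (t : RT) (s : Bool) (T : ℕ) :
    DF h θ' t s T ≤ DF h θ t s T := by
  unfold DF
  refine av_mono fun u _ => EE_anti hM h0 hq h1 ?_
  intro A B hAB
  have := cs_mono h t s u T hAB
  have h2 : (cs h t s u T A : ℝ) ≤ cs h t s u T B := by exact_mod_cast this
  linarith

theorem ind_DF_nil [NeZero p] {h : Host V p} {D : ℕ} (hg : h.Good D) (θ : ℝ) (s : Bool) :
    DF h θ RT.nil s 1 = 0 := by
  have h1 : ∀ u A, ((1 : ℕ) : ℝ) - (cs h RT.nil s u 1 A : ℝ) = 0 := by
    intro u A
    unfold cs
    rw [X_nil]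
    simp
  unfold DF
  simp only [h1, EE_const]
  exact av_const hg s 0

open Classical in
theorem ind_em_le [NeZero p] (hM : ST_EMON) (h : Host V p) {θ q : ℝ} (h0 : 0 ≤ q)
    (hq : q ≤ θ) (h1 : 2 * θ ≤ 1) (t : RT) (s : Bool) :
    av h s (fun u => EE θ fun A => if X h t s u A = ∅ then (1 : ℝ) else 0) ≤ em h q t s := by
  unfold em
  refine av_mono fun u _ => EE_le_E hM h0 hq h1 ?_
  intro A B hAB
  have hs := X_mono h t s u hAB
  by_cases hB : X h t s u B = ∅
  · have hA : X h t s u A = ∅ := by
      rw [hB] at hs
      exact subset_empty.1 hs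
    rw [if_pos hA, if_pos hB]
  · rw [if_neg hB]
    split_ifs <;> norm_num

open Classical in
theorem ind_em_nil [NeZero p] {h : Host V p} {D : ℕ} (hg : h.Good D) (θ : ℝ) (s : Bool) :
    av h s (fun u => EE θ fun A => if X h RT.nil s u A = ∅ then (1 : ℝ) else 0) = 0 := by
  have h1 : ∀ u A, (if X h RT.nil s u A = ∅ then (1 : ℝ) else 0) = 0 := by
    intro u A
    rw [X_nil, if_neg]
    exact singleton_ne_empty _
  simp only [h1, EE_const]
  exact av_const hg s 0

theorem ind_e_pos (a b : RT) : 1 ≤ (RT.cons a b).e := by rw [RT.e]; omega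

theorem ind_Tg_nil (hp : 1 ≤ p) (s : Bool) : Tg p s RT.nil = 1 := by
  unfold Tg
  rw [RT.g]
  omega

end ind

theorem st_IND (h1 : ST_BR) (h2 : ST_BRL) (h3 : ST_BR2) (h4 : ST_MG) (h5 : ST_EM)
    (h6 : ST_EMON) : ST_IND := by
  intro V _ _ p hp h hp2 hg
  have hp0 : 1 ≤ p := hp.out.one_lt.le
  have hpR : (0 : ℝ) < p := by exact_mod_cast hp0
  have hD : 0 < 8192 * p := by omega
  have hDR : ((8192 * p : ℕ) : ℝ) = 8192 * p := by push_cast; ring
  -- densities
  have hth : ∀ n : ℕ, ((n : ℝ) / (4 * p)) * ((8192 * p : ℕ) : ℝ) = 2048 * n := by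
    intro n
    rw [hDR]
    field_simp
    ring
  have hth0 : ∀ n : ℕ, 1 ≤ n → (0 : ℝ) < (n : ℝ) / (4 * p) := by
    intro n hn
    have : (1 : ℝ) ≤ n := by exact_mod_cast hn
    positivity
  have hth1 : ∀ n : ℕ, n ≤ p → (n : ℝ) / (4 * p) ≤ 1 / 4 := by
    intro n hn
    have : (n : ℝ) ≤ p := by exact_mod_cast hn
    rw [div_le_iff₀ (by positivity)]
    linarith
  have hthm : ∀ m n : ℕ, m ≤ n → (m : ℝ) / (4 * p) ≤ (n : ℝ) / (4 * p) := by
    intro m n hmn
    have : (m : ℝ) ≤ n := by exact_mod_cast hmn
    exact div_le_div_of_nonneg_right this (by positivity)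
  have key : ∀ n : ℕ, ∀ (t : RT) (s : Bool), t.e ≤ n → 1 ≤ t.e → t.e ≤ p →
      DF h (t.e / (4 * p)) t s (Tg p s t) ≤ 3 / 5 * t.e - 1 / 10 := by
    intro n
    induction n with
    | zero => intro t s hn ht; omega
    | succ n ih =>
      intro t s hn ht htp
      match t, hn, ht, htp with
      | RT.nil, _, ht, _ => simp [RT.e] at ht
      | RT.cons a (RT.cons b c), hn, ht, htp =>
        -- merge
        have he : (RT.cons a (RT.cons b c)).e = (RT.cons a RT.nil).e + (RT.cons b c).e := by
          simp only [RT.e]; ring
        have hgg : (RT.cons a (RT.cons b c)).g s =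
            (RT.cons a RT.nil).g s + (RT.cons b c).g s := by
          have := g_app s (RT.cons a RT.nil) (RT.cons b c)
          rwa [show (RT.cons a RT.nil).app (RT.cons b c) = RT.cons a (RT.cons b c) by
            rw [RT.app, RT.app]] at this
        have ha1 : 1 ≤ (RT.cons a RT.nil).e := ind_e_pos a _
        have hb1 : 1 ≤ (RT.cons b c).e := ind_e_pos b _
        have happ : (RT.cons a RT.nil).app (RT.cons b c) = RT.cons a (RT.cons b c) := by
          rw [RT.app, RT.app]
        generalize hx : RT.cons a RT.nil = x at *
        generalize hy : RT.cons b c = y at *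
        have ihx := ih x s (by omega) ha1 (by omega)
        have ihy := ih y s (by omega) hb1 (by omega)
        have hT1 : 1 ≤ Tg p s x := by unfold Tg; omega
        have hT2 : 1 ≤ Tg p s y := by unfold Tg; omega
        have hm := h4 V p h (8192 * p) hD hg x y s (Tg p s x) (Tg p s y)
          (Tg p s (RT.cons a y)) (x.e / (4 * p)) (y.e / (4 * p)) (hth0 _ ha1)
          (hth1 _ (by omega)) (hth0 _ hb1) (hth1 _ (by omega)) ha1 hb1 (by omega) (by omega)
          hT1 hT2 (by unfold Tg; omega) (by unfold Tg; omega) (by unfold Tg; omega)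
          (by unfold Tg; omega)
        rw [happ, hth, hth, ← add_div, ← Nat.cast_add, ← he] at hm
        have e1 := h5 V p h (8192 * p) hD hg x s (x.e / (4 * p)) (hth0 _ ha1).le
          ((hth1 _ (by omega)).trans (by norm_num)) ha1 (by rw [hth])
        have e2 := h5 V p h (8192 * p) hD hg y s (y.e / (4 * p)) (hth0 _ hb1).le
          ((hth1 _ (by omega)).trans (by norm_num)) hb1 (by rw [hth])
        have hT1R := ind_Tg_leR (p := p) s ha1
        have hT2R := ind_Tg_leR (p := p) s hb1
        have hxR : (1 : ℝ) ≤ x.e := by exact_mod_cast ha1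
        have hyR : (1 : ℝ) ≤ y.e := by exact_mod_cast hb1
        have b1 : (y.e : ℝ) * (4 * (Tg p s x : ℝ) / (2048 * (x.e : ℝ))) *
            em h (y.e / (4 * p)) y s ≤ 72 / 2048 / 2048 := by
          have q1 : 4 * (Tg p s x : ℝ) / (2048 * (x.e : ℝ)) ≤ 72 / 2048 := by
            rw [div_le_div_iff₀ (by positivity) (by norm_num)]
            nlinarith
          calc (y.e : ℝ) * (4 * (Tg p s x : ℝ) / (2048 * (x.e : ℝ))) * em h (y.e / (4 * p)) y s
              ≤ (y.e : ℝ) * (4 * (Tg p s x : ℝ) / (2048 * (x.e : ℝ))) *
                (1 / (2048 * y.e)) := mul_le_mul_of_nonneg_left e2 (by positivity)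
            _ ≤ (y.e : ℝ) * (72 / 2048) * (1 / (2048 * y.e)) := by gcongr
            _ = 72 / 2048 / 2048 := by field_simp
        have b2 : (x.e : ℝ) * (4 * (Tg p s y : ℝ) / (2048 * (y.e : ℝ))) *
            em h (x.e / (4 * p)) x s ≤ 72 / 2048 / 2048 := by
          have q1 : 4 * (Tg p s y : ℝ) / (2048 * (y.e : ℝ)) ≤ 72 / 2048 := by
            rw [div_le_div_iff₀ (by positivity) (by norm_num)]
            nlinarith
          calc (x.e : ℝ) * (4 * (Tg p s y : ℝ) / (2048 * (y.e : ℝ))) * em h (x.e / (4 * p)) x s
              ≤ (x.e : ℝ) * (4 * (Tg p s y : ℝ) / (2048 * (y.e : ℝ))) *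
                (1 / (2048 * x.e)) := mul_le_mul_of_nonneg_left e1 (by positivity)
            _ ≤ (x.e : ℝ) * (72 / 2048) * (1 / (2048 * x.e)) := by gcongr
            _ = 72 / 2048 / 2048 := by field_simp
        have heR : ((RT.cons a y).e : ℝ) = x.e + y.e := by rw [he]; push_cast; ring
        refine hm.trans ?_
        rw [heR]
        norm_num at b1 b2 ⊢
        linarith
      | RT.cons a RT.nil, hn, ht, htp =>
        have he : (RT.cons a RT.nil).e = a.e + 1 := by simp [RT.e]
        by_cases hs : s = true ∧ RT.small a
        · obtain ⟨rfl, hsm⟩ := hs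
          match a, hsm, hn, htp, he with
          | RT.nil, _, hn, htp, he =>
            have hT : Tg p true (RT.cons RT.nil RT.nil) ≤ 18 := by
              have := ind_Tg_le (p := p) true ht
              rw [he] at this
              simpa [RT.e] using this
            have hTR : (Tg p true (RT.cons RT.nil RT.nil) : ℝ) ≤ 18 := by exact_mod_cast hT
            have hb := h2 V p h (8192 * p) hD hg (Tg p true (RT.cons RT.nil RT.nil))
              ((RT.cons RT.nil RT.nil).e / (4 * p)) (hth0 _ ht)
              (by have := hth1 _ htp; linarith) (by nlinarith)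
            rw [hth] at hb
            refine hb.trans ?_
            have he' : ((RT.cons RT.nil RT.nil).e : ℝ) = 1 := by
              simp [RT.e]
            rw [he']
            have : (2 * (Tg p true (RT.cons RT.nil RT.nil) : ℝ) *
                (Tg p true (RT.cons RT.nil RT.nil) : ℝ)) ≤ 648 := by
              have h0 : (0 : ℝ) ≤ Tg p true (RT.cons RT.nil RT.nil) := by positivity
              nlinarith
            rw [div_le_iff₀ (by norm_num)]
            linarith
          | RT.cons a' RT.nil, _, hn, htp, he =>
            have he2 : (RT.cons (RT.cons a' RT.nil) RT.nil).e = a'.e + 2 := by simp [RT.e]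
            have hgt : (RT.cons (RT.cons a' RT.nil) RT.nil).g true = a'.g true + 1 := by
              simp [RT.g, RT.small]
            have hT18 := ind_Tg_leR (p := p) true ht
            have hb := h3 V p h (8192 * p) hD hp2 hg a'
              (Tg p true (RT.cons (RT.cons a' RT.nil) RT.nil)) (Tg p true a') 18
              ((RT.cons (RT.cons a' RT.nil) RT.nil).e / (4 * p)) (hth0 _ ht)
              (by have := hth1 _ htp; linarith) (by norm_num) (by omega)
              (by unfold Tg; omega) (by unfold Tg; omega) (by unfold Tg; omega)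
            rw [hth] at hb
            have b1 : 6 * ((18 : ℕ) : ℝ) *
                (Tg p true (RT.cons (RT.cons a' RT.nil) RT.nil) : ℝ) /
                (2048 * ((RT.cons (RT.cons a' RT.nil) RT.nil).e : ℝ)) ≤ 1944 / 2048 := by
              have : (1 : ℝ) ≤ ((RT.cons (RT.cons a' RT.nil) RT.nil).e : ℝ) := by
                exact_mod_cast ht
              rw [div_le_div_iff₀ (by positivity) (by norm_num)]
              push_cast
              nlinarith
            have heR : ((RT.cons (RT.cons a' RT.nil) RT.nil).e : ℝ) = a'.e + 2 := by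
              rw [he2]; push_cast; ring
            rcases Nat.eq_zero_or_pos a'.e with ha0 | ha0
            · have ha' : a' = RT.nil := by
                match a', ha0 with
                | RT.nil, _ => rfl
                | RT.cons x y, hxy => simp [RT.e] at hxy
              subst ha'
              rw [ind_Tg_nil hp0, ind_DF_nil hg, ind_em_nil hg] at hb
              refine hb.trans ?_
              rw [heR] at b1 ⊢
              simp only [RT.e, Nat.cast_zero] at b1 ⊢
              linarith
            · have iha := ih a' true (by omega) ha0 (by omega)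
              have hm1 := hthm a'.e (RT.cons (RT.cons a' RT.nil) RT.nil).e (by omega)
              have d1 := ind_DF_anti h6 h (hth0 _ ha0).le hm1
                (by have := hth1 _ htp; linarith) a' true (Tg p true a')
              have d2 := ind_em_le h6 h (hth0 _ ha0).le hm1
                (by have := hth1 _ htp; linarith) a' true
              have d3 := h5 V p h (8192 * p) hD hg a' true (a'.e / (4 * p)) (hth0 _ ha0).le
                ((hth1 _ (by omega)).trans (by norm_num)) ha0 (by rw [hth])
              have d4 : (1 : ℝ) / (2048 * a'.e) ≤ 1 / 2048 := by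
                have : (1 : ℝ) ≤ a'.e := by exact_mod_cast ha0
                rw [div_le_div_iff₀ (by positivity) (by norm_num)]
                linarith
              have d5 := (d2.trans d3).trans d4
              refine hb.trans ?_
              have d6 : ((18 : ℕ) : ℝ) * av h true (fun u =>
                  EE ((RT.cons (RT.cons a' RT.nil) RT.nil).e / (4 * p)) fun A =>
                    if X h a' true u A = ∅ then (1 : ℝ) else 0) ≤ 18 * (1 / 2048) := by
                push_cast
                exact mul_le_mul_of_nonneg_left d5 (by norm_num)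
              have d7 := d1.trans iha
              rw [heR] at b1 d6 d7 ⊢
              norm_num at b1 d6 ⊢
              linarith
          | RT.cons a' (RT.cons b c), hsm, _, _, _ => exact hsm.elim
        · -- no growth
          have hgt : (RT.cons a RT.nil).g s = a.g (!s) := by
            rw [RT.g, if_neg hs]
            simp [RT.g]
          have hTT : Tg p s (RT.cons a RT.nil) = Tg p (!s) a := by
            unfold Tg
            rw [hgt]
          have hT18 := ind_Tg_leR (p := p) s ht
          have hb := h1 V p h (8192 * p) hD hg a s (Tg p s (RT.cons a RT.nil))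
            ((RT.cons a RT.nil).e / (4 * p)) (hth0 _ ht)
            (by have := hth1 _ htp; linarith)
          rw [hth] at hb
          have b1 : 2 * (Tg p s (RT.cons a RT.nil) : ℝ) /
              (2048 * ((RT.cons a RT.nil).e : ℝ)) ≤ 36 / 2048 := by
            have : (1 : ℝ) ≤ ((RT.cons a RT.nil).e : ℝ) := by exact_mod_cast ht
            rw [div_le_div_iff₀ (by positivity) (by norm_num)]
            nlinarith
          have heR : ((RT.cons a RT.nil).e : ℝ) = a.e + 1 := by
            rw [he]; push_cast; ring
          rcases Nat.eq_zero_or_pos a.e with ha0 | ha0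
          · have ha' : a = RT.nil := by
              match a, ha0 with
              | RT.nil, _ => rfl
              | RT.cons x y, hxy => simp [RT.e] at hxy
            subst ha'
            have z := ind_DF_nil hg ((RT.cons RT.nil RT.nil).e / (4 * p)) (!s)
            rw [hTT, ind_Tg_nil hp0] at hb b1 ⊢
            rw [z] at hb
            refine hb.trans ?_
            rw [heR] at b1 ⊢
            simp only [RT.e, Nat.cast_zero] at b1 ⊢
            linarith
          · have iha := ih a (!s) (by omega) ha0 (by omega)
            have hm1 := hthm a.e (RT.cons a RT.nil).e (by omega)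
            have d1 := ind_DF_anti h6 h (hth0 _ ha0).le hm1
              (by have := hth1 _ htp; linarith) a (!s) (Tg p (!s) a)
            have d7 := d1.trans iha
            rw [hTT] at hb b1 ⊢
            refine hb.trans ?_
            rw [heR] at b1 d7 ⊢
            norm_num at b1 ⊢
            linarith
  intro t s ht htp
  exact key t.e t s le_rfl ht htp

end ZS
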